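import Pool.Agent.H84.S2.TgB
import Pool.Agent.H29.SF.GLZ

/-!
# MP_70ba79_ag, THEOREM S, part 2: row B_GL3 (a family of curves does not move)

Copy of `Pool.Agent.H29.SF.pf_GLZ` with the hypothesis `Gnd`.
-/

set_option autoImplicit false

namespace Pool.Agent.H4.S2

open MvPolynomial SC
open Pool.Agent.H84.SF
open Pool.Agent.H27.LV (ge deg poleOrder canDeg DegreeBound)
open Pool.Agent.H84.SM (cr dt dp)
open Pool.Agent.H84.SL (pd)
open Pool.Agent.H3.SF (Itg Bb BB Hm eu grd hes Sfc Crd Crf Prm)
open Pool.Agent.H17.SD (Prj Smo HRel)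
open Pool.Agent.H19.SL
open Pool.Agent.H84.S2
open Pool.Agent.H29.SF

theorem pf_GL3 (hHIE : T_HIE) (hDRV : Pool.Agent.H84.SL.T_DRV)
    (hHNZ : Pool.Agent.H84.SL.T_HNZ) : T_GL3 := by
  intro k F σ _ _ _ _ _ _ X u θ dd J δ₀ j0 c0 cc hS d GP hd hGh hGnd L _ _ P c m e hc he hdeg hPe
    hP0 hI hP
  by_contra hcon
  push Not at hcon
  have hL : CharZero L := charZero_of_injective_algebraMap (algebraMap k L).injective
  have hinj := IsFractionRing.injective (Polynomial L) (MF L)
  have hJh : J.IsHomogeneous j0 := hS.sfc.Jh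
  have hJ0 : J ≠ 0 := hS.sfc.J0
  have hXeu := hS.prj.Xeu
  -- the plane family
  obtain ⟨Q, hQdef⟩ : ∃ Q : Fin 3 → Polynomial L, Q = lin cc P := ⟨_, rfl⟩
  rw [← hQdef] at hcon
  have hQdeg : ∀ l, (Q l).natDegree ≤ e := fun l => by
    rw [hQdef]; exact lin_natDegree cc P e hdeg l
  -- the point in the field of rational functions
  set p : Fin 3 → MF L := fun i => algebraMap (Polynomial L) (MF L) (Q i) with hp
  have hhom : ∀ (N : ℕ) (Ψ : MvPolynomial (Fin 3) k), Ψ ≠ 0 → Ψ.IsHomogeneous N →
      aeval p Ψ ≠ 0 := by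
    intro N Ψ h1 h2 h3
    have h4 := MvPolynomial.comp_aeval_apply (B := MF L) Q
      (IsScalarTower.toAlgHom k (Polynomial L) (MF L)) Ψ
    have h5 : algebraMap (Polynomial L) (MF L) (aeval Q Ψ) = 0 := h4.trans h3
    exact hcon N Ψ h1 h2 ((map_eq_zero_iff _ hinj).1 h5)
  have h0 : Q 0 ≠ 0 := by
    have := hcon 1 (MvPolynomial.X 0) (X_ne_zero 0) (isHomogeneous_X _ _)
    rwa [aeval_X] at this
  have hp0 : p 0 ≠ 0 := by
    intro h1
    exact h0 ((map_eq_zero_iff _ hinj).1 h1)
  obtain ⟨der, hder⟩ := exists_der L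
  -- some ratio has a nonzero derivative
  have keyg : ∀ R : Polynomial L, der (algebraMap (Polynomial L) (MF L) R / p 0) = 0 →
      Polynomial.derivative R * Q 0 = R * Polynomial.derivative (Q 0) := by
    intro R h1
    have h2 : algebraMap (Polynomial L) (MF L) R =
        p 0 * (algebraMap (Polynomial L) (MF L) R / p 0) := by field_simp
    have h3 : der (algebraMap (Polynomial L) (MF L) R) =
        algebraMap (Polynomial L) (MF L) R / p 0 * der (p 0) := by
      have := Derivation.leibniz der (p 0) (algebraMap (Polynomial L) (MF L) R / p 0)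
      rw [← h2, h1, smul_zero, zero_add, smul_eq_mul] at this
      exact this
    have h4 : der (algebraMap (Polynomial L) (MF L) R) * p 0 =
        algebraMap (Polynomial L) (MF L) R * der (p 0) := by
      rw [h3]; field_simp
    have h5 : algebraMap (Polynomial L) (MF L) (Polynomial.derivative R * Q 0) =
        algebraMap (Polynomial L) (MF L) (R * Polynomial.derivative (Q 0)) := by
      rw [map_mul, map_mul, ← hder, ← hder]
      exact h4
    exact hinj h5
  have key : ∀ i, Polynomial.derivative (Q i) * Q 0 ≠ Q i * Polynomial.derivative (Q 0) →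
      der (p i / p 0) ≠ 0 := fun i hi h1 => hi (keyg (Q i) h1)
  have hex : ∃ i, Polynomial.derivative (Q i) * Q 0 ≠ Q i * Polynomial.derivative (Q 0) := by
    by_contra h1
    push Not at h1
    choose a ha using fun i => exists_const (Q i) (Q 0) h0 (h1 i)
    -- all coordinates are constant up to the factor `Q 0`
    have hall : ∀ s, ∃ μ : L, P s = Polynomial.C μ * Q 0 := by
      intro s
      refine exists_const (P s) (Q 0) h0 (keyg (P s) (der_alg der _ ?_))
      have hXs : Hm k (eu u dd) ((1 : ℕ) : ℤ) (X s) := by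
        unfold Hm
        rw [hXeu s]
        push_cast
        ring
      obtain ⟨N, cf, hcf, hrel⟩ := hHIE k F u dd hS.sfc.du (X s) 1 (hS.prj.Xint s) hXs
      -- the relation for `P`
      have hrelP : P s ^ N + ∑ i : Fin N, aeval Q (cf i) * P s ^ (i : ℕ) = 0 := by
        have h2 := hI (MvPolynomial.X s ^ N + ∑ i : Fin N,
          aeval (lin cc (MvPolynomial.X : σ → MvPolynomial σ k)) (cf i) *
            MvPolynomial.X s ^ (i : ℕ)) (by
          rw [map_add, map_pow, aeval_X, map_sum, ← hrel]
          congr 1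
          refine Finset.sum_congr rfl fun i _ => ?_
          have e1 : lin cc X = u := by
            funext l
            rw [hS.lin l]
            rfl
          rw [map_mul, map_pow, aeval_X, aeval_lin, e1])
        rw [map_add, map_pow, aeval_X, map_sum] at h2
        rw [← h2]
        congr 1
        refine Finset.sum_congr rfl fun i _ => ?_
        rw [map_mul, map_pow, aeval_X, aeval_lin, ← hQdef]
      -- the monic equation over `L`
      have hcfv : ∀ i : Fin N, aeval Q (cf i) =
          Q 0 ^ (N - (i : ℕ)) * Polynomial.C (aeval a (cf i)) := by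
        intro i
        have e1 : Q = fun i => Q 0 * Polynomial.C (a i) := by
          funext i
          rw [mul_comm]; exact ha i
        have e2 : aeval Q (cf i) = aeval (fun i => Q 0 * Polynomial.C (a i)) (cf i) :=
          congrArg (fun z : Fin 3 → Polynomial L => aeval z (cf i)) e1
        have e0 := hcf i
        rw [mul_one] at e0
        rw [e2, aeval_mul_hom (cf i) _ e0]
        congr 1
        have e3 := MvPolynomial.comp_aeval_apply (B := Polynomial L) a
          (Algebra.algHom k L (Polynomial L)) (cf i)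
        exact e3.symm
      set r : MF L := algebraMap (Polynomial L) (MF L) (P s) / p 0 with hr
      have hrP : algebraMap (Polynomial L) (MF L) (P s) = p 0 * r := by
        rw [hr]; field_simp
      have heq : r ^ N + ∑ i : Fin N, algebraMap L (MF L) (aeval a (cf i)) * r ^ (i : ℕ) = 0 := by
        have h2 := congrArg (algebraMap (Polynomial L) (MF L)) hrelP
        rw [map_add, map_pow, map_sum, map_zero, hrP] at h2
        have h3 : p 0 ^ N * (r ^ N + ∑ i : Fin N, algebraMap L (MF L) (aeval a (cf i)) *
            r ^ (i : ℕ)) = 0 := by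
          rw [← h2, mul_add, mul_pow, Finset.mul_sum]
          congr 1
          refine Finset.sum_congr rfl fun i _ => ?_
          rw [map_mul, map_pow, hcfv, map_mul, map_pow, hrP, mul_pow]
          have e4 : algebraMap (Polynomial L) (MF L) (Polynomial.C (aeval a (cf i))) =
              algebraMap L (MF L) (aeval a (cf i)) := rfl
          rw [e4]
          have e5 : p 0 ^ N = p 0 ^ (N - (i : ℕ)) * p 0 ^ (i : ℕ) := by
            rw [← pow_add]
            congr 1
            have := i.2
            omega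
          rw [e5]
          ring
        rcases mul_eq_zero.1 h3 with h4 | h4
        · exact absurd h4 (pow_ne_zero _ hp0)
        · exact h4
      refine ⟨Polynomial.X ^ N + ∑ i : Fin N, Polynomial.C (aeval a (cf i)) *
        Polynomial.X ^ (i : ℕ), ?_, ?_⟩
      · refine Polynomial.monic_X_pow_add ?_
        refine (Polynomial.degree_sum_le _ _).trans_lt ?_
        rw [Finset.sup_lt_iff (by exact_mod_cast WithBot.bot_lt_coe N)]
        intro i _
        refine (Polynomial.degree_C_mul_X_pow_le _ _).trans_lt ?_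
        exact_mod_cast i.2
      · rw [← Polynomial.aeval_def, map_add, map_pow, Polynomial.aeval_X, map_sum, ← heq]
        congr 1
        refine Finset.sum_congr rfl fun i _ => ?_
        rw [map_mul, map_pow, Polynomial.aeval_X, Polynomial.aeval_C]
    choose μ hμ using hall
    exact not_const_gen GP d hGh (by omega) P (Q 0) μ hμ c m e hc he hPe hP0 hP
  -- the derivation
  have hΔ : ∃ Δ : Derivation k (MF L) (MF L), Δ (p 1 / p 0) * der (p 2 / p 0) -
      Δ (p 2 / p 0) * der (p 1 / p 0) ≠ 0 := by
    obtain ⟨i, hi⟩ := hex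
    have hd' := key i hi
    have hi' : i = 0 ∨ i = 1 ∨ i = 2 := by
      fin_cases i <;> simp
    rcases hi' with rfl | rfl | rfl
    · exact absurd (mul_comm _ _) hi
    · obtain ⟨Δ, hΔ1, hΔ2⟩ := hDRV k (MF L) _ _ (hHNZ k (MF L) p hhom 0 1 2 (by decide) (by decide)
        (by decide))
      refine ⟨Δ, ?_⟩
      rw [hΔ1, zero_mul, zero_sub, neg_ne_zero]
      exact mul_ne_zero hΔ2 hd'
    · obtain ⟨Δ, hΔ1, hΔ2⟩ := hDRV k (MF L) _ _ (hHNZ k (MF L) p hhom 0 2 1 (by decide) (by decide)
        (by decide))
      refine ⟨Δ, ?_⟩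
      rw [hΔ1, zero_mul, sub_zero]
      exact mul_ne_zero hΔ2 hd'
  obtain ⟨Δ, hΔ⟩ := hΔ
  have hD := det_ne der hder Δ Q h0 hΔ
  -- the three vectors
  set δ : L → MF L := fun a : L => Δ (algebraMap L (MF L) a) with hδ
  have hδ0 : δ 0 = 0 := by rw [hδ]; simp
  set a : Fin 3 → Polynomial (MF L) := fun i => (Q i).map (algebraMap L (MF L)) with ha
  set b : Fin 3 → Polynomial (MF L) := fun i => pd δ (Q i) with hb
  set v : Fin 3 → Polynomial (MF L) := fun i =>
    Polynomial.X * (Polynomial.derivative (Q i)).map (algebraMap L (MF L)) with hv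
  have hv' : ∀ i, v i = Polynomial.X * Polynomial.derivative (a i) := fun i => by
    rw [hv, ha]
    simp only [Polynomial.derivative_map]
  have na : ∀ i, (a i).natDegree ≤ e := fun i => Polynomial.natDegree_map_le.trans (hQdeg i)
  have nb : ∀ i, (b i).natDegree ≤ e := fun i => pd_natDegree δ hδ0 _ e (hQdeg i)
  have nv : ∀ i, (v i).natDegree ≤ e := fun i => by
    rw [hv']; exact X_der_natDegree _ e (na i)
  -- the value of `J`
  have hJQ : aeval Q J ≠ 0 := hcon j0 J hJ0 hJh
  obtain ⟨Jm, hJm⟩ : ∃ Jm : Polynomial (MF L), Jm = (aeval Q J).map (algebraMap L (MF L)) :=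
    ⟨_, rfl⟩
  have hJm0 : Jm ≠ 0 := by
    rw [hJm]
    exact (Polynomial.map_ne_zero_iff (algebraMap L (MF L)).injective).2 hJQ
  have hJmd : Jm.natDegree ≤ j0 * e := by
    rw [hJm]
    exact Polynomial.natDegree_map_le.trans (natDegree_aeval_le J j0 e hJh Q hQdeg)
  have hdtd := dt_natDegree e a b v na nb nv
  refine mul_ne_zero hJm0 hD (both_ends_gen (Jm * dt a b v) (j0 + 3) d e m (by omega) he ?_ ?_ ?_)
  · refine Polynomial.natDegree_mul_le.trans ?_
    rw [Nat.add_mul]
    exact add_le_add hJmd hdtd
  · have h1 := hGnd L (MF L) Δ P c m hc hP0 hI hP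
    rw [← hQdef] at h1
    rw [hJm]
    exact h1
  intro hm
  -- the reflected family
  have hQ : aeval (fun i => (P i).reflect e) GP =
      Polynomial.C c * Polynomial.X ^ (d * e - m) := by
    rw [reflect_aeval_gen GP d e hGh P hdeg, hP, Polynomial.reflect_C_mul_X_pow,
      Polynomial.revAt_le hm]
  have hQ0 : ∃ i, ((P i).reflect e).coeff 0 ≠ 0 := by
    obtain ⟨i, hi⟩ := hPe
    refine ⟨i, ?_⟩
    rw [Polynomial.coeff_reflect, Polynomial.revAt_zero]
    exact hi
  have hI' : ∀ f : MvPolynomial σ k, aeval X f = 0 →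
      aeval (fun i => (P i).reflect e) f = 0 := by
    intro f hf
    rw [← sum_homogeneousComponent f, map_sum]
    refine Finset.sum_eq_zero fun i _ => ?_
    rw [reflect_aeval_gen _ i e (homogeneousComponent_isHomogeneous i f) P hdeg,
      comp_zero X u dd hXeu P hI f hf i, Polynomial.reflect_zero]
  have h1 := hGnd L (MF L) Δ
    (fun i => (P i).reflect e) c (d * e - m) hc hQ0 hI' hQ
  have e0 : lin cc (fun i => (P i).reflect e) = fun l => (Q l).reflect e := by
    funext l
    rw [lin_reflect, hQdef]
  have eJ : (aeval (fun l => (Q l).reflect e) J).map (algebraMap L (MF L)) =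
      Jm.reflect (j0 * e) := by
    rw [reflect_aeval_gen J j0 e hJh Q hQdeg, hJm, Polynomial.reflect_map]
  have e1 : ∀ i, ((Q i).reflect e).map (algebraMap L (MF L)) = (a i).reflect e := fun i =>
    (Polynomial.reflect_map _ _ _).symm
  have e2 : ∀ i, pd (fun b => Δ (algebraMap L (MF L) b)) ((Q i).reflect e) =
      (b i).reflect e := fun i => by
    rw [hb, ← pd_reflect δ hδ0]
  have e3 : ∀ i, Polynomial.X * (Polynomial.derivative ((Q i).reflect e)).map
      (algebraMap L (MF L)) = Polynomial.C (e : MF L) * (a i).reflect e - (v i).reflect e := by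
    intro i
    rw [← Polynomial.derivative_map, e1, X_derivative_reflect (a i) e (na i), hv']
  rw [e0, eJ] at h1
  simp only [e1, e2, e3] at h1
  have e4 : dt (fun i => (a i).reflect e) (fun i => (b i).reflect e)
      (fun i => Polynomial.C (e : MF L) * (a i).reflect e - (v i).reflect e) =
      - (dt a b v).reflect (3 * e) := by
    rw [← dt_reflect e a b v na nb nv, dt_def, dt_def]
    ring
  rw [e4, mul_neg, ← Polynomial.reflect_mul _ _ hJmd hdtd, ← Nat.add_mul] at h1
  exact (dvd_neg.1 h1)

end Pool.Agent.H4.S2
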