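import Pool.Agent.H84.S2.TgE
import Pool.Agent.H29.SF.GLZ

/-!
# MP_70ba79_ag, THEOREM S, part 3: row E_GL4 (a family of curves does not move)

Copy of `Pool.Agent.H4.S2.pf_GL3` with the hypothesis `Gns`.
-/

set_option autoImplicit false

namespace Pool.Agent.H4.S2

open MvPolynomial SC
open Pool.Agent.H84.SF
open Pool.Agent.H27.LV (ge deg poleOrder canDeg DegreeBound)
open Pool.Agent.H84.SM (cr dt dp)
open Pool.Agent.H84.SL (pd)
open Pool.Agent.H3.SF (Itg Bb BB Hm eu grd hes Sfc Crd Crf Prm)
open Pool.Agent.H17.SD (Prj Smo HRel)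
open Pool.Agent.H19.SL
open Pool.Agent.H84.S2
open Pool.Agent.H29.SF

/-- forms at a family which is constant up to a factor -/
theorem not_const_4 {k L σ : Type} [Field k] [Field L] [Algebra k L] [Fintype σ]
    (G S : MvPolynomial σ k) (d sg : ℕ) (hG : G.IsHomogeneous d) (hS : S.IsHomogeneous sg)
    (hd : sg < d) (P : σ → Polynomial L) (R : Polynomial L) (a : σ → L)
    (ha : ∀ i, P i = Polynomial.C (a i) * R) (N e : ℕ) (he : 1 ≤ e)
    (hPe : ∃ i, (P i).coeff e ≠ 0) (hP0 : ∃ i, (P i).coeff 0 ≠ 0) (hS0 : aeval P S ≠ 0)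
    (hdiv : aeval P G ∣ Polynomial.X ^ N * aeval P S) : False := by
  have h1 : ∀ (G : MvPolynomial σ k) (d : ℕ), G.IsHomogeneous d →
      aeval P G = R ^ d * Polynomial.C (aeval a G) := by
    intro G d hG
    have e1 : P = fun i => R * Polynomial.C (a i) := by
      funext i
      rw [mul_comm]; exact ha i
    have e2 : aeval P G = aeval (fun i => R * Polynomial.C (a i)) G :=
      congrArg (fun z : σ → Polynomial L => aeval z G) e1
    rw [e2, aeval_mul_hom G d hG]
    congr 1
    have e3 := MvPolynomial.comp_aeval_apply (B := Polynomial L) a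
      (Algebra.algHom k L (Polynomial L)) G
    exact e3.symm
  have hc0 : R.coeff 0 ≠ 0 := by
    obtain ⟨i, hi⟩ := hP0
    intro h2
    apply hi
    rw [ha i, Polynomial.coeff_C_mul, h2, mul_zero]
  have hR0 : R ≠ 0 := by
    intro h2
    apply hc0
    rw [h2, Polynomial.coeff_zero]
  have hs : aeval a S ≠ 0 := by
    intro h2
    apply hS0
    rw [h1 S sg hS, h2, Polynomial.C_0, mul_zero]
  have h2 : R ^ sg * R ∣ R ^ sg * (Polynomial.X ^ N * Polynomial.C (aeval a S)) := by
    refine dvd_trans ?_ (dvd_trans hdiv (dvd_of_eq ?_))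
    · rw [h1 G d hG, ← pow_succ]
      exact dvd_mul_of_dvd_left (pow_dvd_pow R (by omega)) _
    · rw [h1 S sg hS]
      ring
  have h3 : R ∣ Polynomial.X ^ N * Polynomial.C (aeval a S) :=
    (mul_dvd_mul_iff_left (pow_ne_zero _ hR0)).1 h2
  have h4 : IsCoprime R (Polynomial.X ^ N) := by
    refine IsCoprime.pow_right (IsCoprime.symm ?_)
    refine (Polynomial.irreducible_X.coprime_iff_not_dvd).2 ?_
    rw [Polynomial.X_dvd_iff]
    exact hc0
  have h5 : R ∣ Polynomial.C (aeval a S) := h4.dvd_of_dvd_mul_left h3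
  have hdeg : R.natDegree = 0 := by
    have h6 := Polynomial.natDegree_le_of_dvd h5 (Polynomial.C_ne_zero.2 hs)
    rw [Polynomial.natDegree_C] at h6
    omega
  obtain ⟨i, hi⟩ := hPe
  apply hi
  rw [ha i, Polynomial.coeff_C_mul, Polynomial.coeff_eq_zero_of_natDegree_lt (by omega), mul_zero]

/-- a polynomial which vanishes at both ends to a total order larger than the degree -/
theorem ends2 {M : Type} [Field M] (D : Polynomial M) (n a b : ℕ) (hD : D.natDegree ≤ n)
    (hab : n < a + b) (h1 : Polynomial.X ^ a ∣ D) (h2 : Polynomial.X ^ b ∣ D.reflect n) :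
    D = 0 := by
  ext j
  rw [Polynomial.coeff_zero]
  rcases lt_or_ge n j with hj | hj
  · exact Polynomial.coeff_eq_zero_of_natDegree_lt (by omega)
  rcases lt_or_ge j a with hjm | hjm
  · exact Polynomial.X_pow_dvd_iff.1 h1 j hjm
  have h3 := Polynomial.X_pow_dvd_iff.1 h2 (n - j) (by omega)
  rw [Polynomial.coeff_reflect, Polynomial.revAt_le (by omega)] at h3
  rwa [show n - (n - j) = j by omega] at h3

/-- the reflected polynomial, as a power of `X` times a polynomial with nonzero constant term -/
theorem reflect_eq {M : Type} [Field M] (A : Polynomial M) (hA : A ≠ 0) (n : ℕ)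
    (hn : A.natDegree ≤ n) : A.reflect n = A.reverse * Polynomial.X ^ (n - A.natDegree) ∧
      A.reverse.coeff 0 ≠ 0 := by
  refine ⟨?_, ?_⟩
  · have h1 := Polynomial.reflect_mul A (1 : Polynomial M) (F := A.natDegree)
      (G := n - A.natDegree) le_rfl (by simp)
    rw [mul_one, Nat.add_sub_cancel' hn] at h1
    rw [h1]
    congr 1
    have h2 := Polynomial.reflect_C_mul_X_pow (n - A.natDegree) 0 (c := (1 : M))
    rw [Polynomial.C_1, one_mul, pow_zero, one_mul, Polynomial.revAt_zero] at h2
    exact h2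
  · rw [Polynomial.coeff_zero_reverse]
    exact Polynomial.leadingCoeff_ne_zero.2 hA

theorem pf_GL4 (hHIE : T_HIE) (hDRV : Pool.Agent.H84.SL.T_DRV)
    (hHNZ : Pool.Agent.H84.SL.T_HNZ) : T_GL4 := by
  intro k F σ _ _ _ _ _ _ X u θ dd J δ₀ j0 c0 cc hS d GP sg SP hd hGh hSh hGns L _ _ P Nx e he
    hdeg hPe hP0 hI hSne hdiv
  -- the factorisation
  have hA0 : aeval P GP ≠ 0 := by
    intro h1
    rw [h1, zero_dvd_iff] at hdiv
    exact mul_ne_zero (pow_ne_zero _ Polynomial.X_ne_zero) hSne hdiv
  obtain ⟨RR, m, hP, hRR0⟩ : ∃ (RR : Polynomial L) (m : ℕ), aeval P GP = RR * Polynomial.X ^ m ∧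
      RR.coeff 0 ≠ 0 := by
    obtain ⟨q, hq1, hq2⟩ :=
      Polynomial.exists_eq_pow_rootMultiplicity_mul_and_not_dvd (aeval P GP) hA0 0
    rw [Polynomial.C_0, sub_zero] at hq1 hq2
    refine ⟨q, _, by rw [mul_comm]; exact hq1, ?_⟩
    rw [Polynomial.X_dvd_iff] at hq2
    exact hq2
  have hRRne : RR ≠ 0 := by
    intro h1
    apply hRR0
    rw [h1, Polynomial.coeff_zero]
  have hRRS : RR ∣ aeval P SP := by
    have h1 : RR ∣ Polynomial.X ^ Nx * aeval P SP := dvd_trans ⟨_, hP⟩ hdiv
    refine IsCoprime.dvd_of_dvd_mul_left ?_ h1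
    refine IsCoprime.pow_right (IsCoprime.symm ?_)
    refine (Polynomial.irreducible_X.coprime_iff_not_dvd).2 ?_
    rw [Polynomial.X_dvd_iff]
    exact hRR0
  have hRRd : RR.natDegree ≤ sg * e :=
    (Polynomial.natDegree_le_of_dvd hRRS hSne).trans (natDegree_aeval_le SP sg e hSh P hdeg)
  have hAd : (aeval P GP).natDegree = RR.natDegree + m := by
    rw [hP, Polynomial.natDegree_mul hRRne (pow_ne_zero _ Polynomial.X_ne_zero),
      Polynomial.natDegree_X_pow]
  have hAle : (aeval P GP).natDegree ≤ d * e := natDegree_aeval_le GP d e hGh P hdeg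
  by_contra hcon
  push Not at hcon
  have hL : CharZero L := charZero_of_injective_algebraMap (algebraMap k L).injective
  have hinj := IsFractionRing.injective (Polynomial L) (MF L)
  have hJh : J.IsHomogeneous j0 := hS.sfc.Jh
  have hJ0 : J ≠ 0 := hS.sfc.J0
  have hXeu := hS.prj.Xeu
  -- the plane family
  obtain ⟨Q, hQdef⟩ : ∃ Q : Fin 3 → Polynomial L, Q = lin cc P := ⟨_, rfl⟩
  rw [← hQdef] at hcon
  have hQdeg : ∀ l, (Q l).natDegree ≤ e := fun l => by
    rw [hQdef]; exact lin_natDegree cc P e hdeg l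
  -- the point in the field of rational functions
  set p : Fin 3 → MF L := fun i => algebraMap (Polynomial L) (MF L) (Q i) with hp
  have hhom : ∀ (N : ℕ) (Ψ : MvPolynomial (Fin 3) k), Ψ ≠ 0 → Ψ.IsHomogeneous N →
      aeval p Ψ ≠ 0 := by
    intro N Ψ h1 h2 h3
    have h4 := MvPolynomial.comp_aeval_apply (B := MF L) Q
      (IsScalarTower.toAlgHom k (Polynomial L) (MF L)) Ψ
    have h5 : algebraMap (Polynomial L) (MF L) (aeval Q Ψ) = 0 := h4.trans h3
    exact hcon N Ψ h1 h2 ((map_eq_zero_iff _ hinj).1 h5)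
  have h0 : Q 0 ≠ 0 := by
    have := hcon 1 (MvPolynomial.X 0) (X_ne_zero 0) (isHomogeneous_X _ _)
    rwa [aeval_X] at this
  have hp0 : p 0 ≠ 0 := by
    intro h1
    exact h0 ((map_eq_zero_iff _ hinj).1 h1)
  obtain ⟨der, hder⟩ := exists_der L
  -- some ratio has a nonzero derivative
  have keyg : ∀ R : Polynomial L, der (algebraMap (Polynomial L) (MF L) R / p 0) = 0 →
      Polynomial.derivative R * Q 0 = R * Polynomial.derivative (Q 0) := by
    intro R h1
    have h2 : algebraMap (Polynomial L) (MF L) R =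
        p 0 * (algebraMap (Polynomial L) (MF L) R / p 0) := by field_simp
    have h3 : der (algebraMap (Polynomial L) (MF L) R) =
        algebraMap (Polynomial L) (MF L) R / p 0 * der (p 0) := by
      have := Derivation.leibniz der (p 0) (algebraMap (Polynomial L) (MF L) R / p 0)
      rw [← h2, h1, smul_zero, zero_add, smul_eq_mul] at this
      exact this
    have h4 : der (algebraMap (Polynomial L) (MF L) R) * p 0 =
        algebraMap (Polynomial L) (MF L) R * der (p 0) := by
      rw [h3]; field_simp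
    have h5 : algebraMap (Polynomial L) (MF L) (Polynomial.derivative R * Q 0) =
        algebraMap (Polynomial L) (MF L) (R * Polynomial.derivative (Q 0)) := by
      rw [map_mul, map_mul, ← hder, ← hder]
      exact h4
    exact hinj h5
  have key : ∀ i, Polynomial.derivative (Q i) * Q 0 ≠ Q i * Polynomial.derivative (Q 0) →
      der (p i / p 0) ≠ 0 := fun i hi h1 => hi (keyg (Q i) h1)
  have hex : ∃ i, Polynomial.derivative (Q i) * Q 0 ≠ Q i * Polynomial.derivative (Q 0) := by
    by_contra h1
    push Not at h1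
    choose a ha using fun i => exists_const (Q i) (Q 0) h0 (h1 i)
    -- all coordinates are constant up to the factor `Q 0`
    have hall : ∀ s, ∃ μ : L, P s = Polynomial.C μ * Q 0 := by
      intro s
      refine exists_const (P s) (Q 0) h0 (keyg (P s) (der_alg der _ ?_))
      have hXs : Hm k (eu u dd) ((1 : ℕ) : ℤ) (X s) := by
        unfold Hm
        rw [hXeu s]
        push_cast
        ring
      obtain ⟨N, cf, hcf, hrel⟩ := hHIE k F u dd hS.sfc.du (X s) 1 (hS.prj.Xint s) hXs
      -- the relation for `P`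
      have hrelP : P s ^ N + ∑ i : Fin N, aeval Q (cf i) * P s ^ (i : ℕ) = 0 := by
        have h2 := hI (MvPolynomial.X s ^ N + ∑ i : Fin N,
          aeval (lin cc (MvPolynomial.X : σ → MvPolynomial σ k)) (cf i) *
            MvPolynomial.X s ^ (i : ℕ)) (by
          rw [map_add, map_pow, aeval_X, map_sum, ← hrel]
          congr 1
          refine Finset.sum_congr rfl fun i _ => ?_
          have e1 : lin cc X = u := by
            funext l
            rw [hS.lin l]
            rfl
          rw [map_mul, map_pow, aeval_X, H29.SF.aeval_lin, e1])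
        rw [map_add, map_pow, aeval_X, map_sum] at h2
        rw [← h2]
        congr 1
        refine Finset.sum_congr rfl fun i _ => ?_
        rw [map_mul, map_pow, aeval_X, H29.SF.aeval_lin, ← hQdef]
      -- the monic equation over `L`
      have hcfv : ∀ i : Fin N, aeval Q (cf i) =
          Q 0 ^ (N - (i : ℕ)) * Polynomial.C (aeval a (cf i)) := by
        intro i
        have e1 : Q = fun i => Q 0 * Polynomial.C (a i) := by
          funext i
          rw [mul_comm]; exact ha i
        have e2 : aeval Q (cf i) = aeval (fun i => Q 0 * Polynomial.C (a i)) (cf i) :=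
          congrArg (fun z : Fin 3 → Polynomial L => aeval z (cf i)) e1
        have e0 := hcf i
        rw [mul_one] at e0
        rw [e2, aeval_mul_hom (cf i) _ e0]
        congr 1
        have e3 := MvPolynomial.comp_aeval_apply (B := Polynomial L) a
          (Algebra.algHom k L (Polynomial L)) (cf i)
        exact e3.symm
      set r : MF L := algebraMap (Polynomial L) (MF L) (P s) / p 0 with hr
      have hrP : algebraMap (Polynomial L) (MF L) (P s) = p 0 * r := by
        rw [hr]; field_simp
      have heq : r ^ N + ∑ i : Fin N, algebraMap L (MF L) (aeval a (cf i)) * r ^ (i : ℕ) = 0 := by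
        have h2 := congrArg (algebraMap (Polynomial L) (MF L)) hrelP
        rw [map_add, map_pow, map_sum, map_zero, hrP] at h2
        have h3 : p 0 ^ N * (r ^ N + ∑ i : Fin N, algebraMap L (MF L) (aeval a (cf i)) *
            r ^ (i : ℕ)) = 0 := by
          rw [← h2, mul_add, mul_pow, Finset.mul_sum]
          congr 1
          refine Finset.sum_congr rfl fun i _ => ?_
          rw [map_mul, map_pow, hcfv, map_mul, map_pow, hrP, mul_pow]
          have e4 : algebraMap (Polynomial L) (MF L) (Polynomial.C (aeval a (cf i))) =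
              algebraMap L (MF L) (aeval a (cf i)) := rfl
          rw [e4]
          have e5 : p 0 ^ N = p 0 ^ (N - (i : ℕ)) * p 0 ^ (i : ℕ) := by
            rw [← pow_add]
            congr 1
            have := i.2
            omega
          rw [e5]
          ring
        rcases mul_eq_zero.1 h3 with h4 | h4
        · exact absurd h4 (pow_ne_zero _ hp0)
        · exact h4
      refine ⟨Polynomial.X ^ N + ∑ i : Fin N, Polynomial.C (aeval a (cf i)) *
        Polynomial.X ^ (i : ℕ), ?_, ?_⟩
      · refine Polynomial.monic_X_pow_add ?_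
        refine (Polynomial.degree_sum_le _ _).trans_lt ?_
        rw [Finset.sup_lt_iff (by exact_mod_cast WithBot.bot_lt_coe N)]
        intro i _
        refine (Polynomial.degree_C_mul_X_pow_le _ _).trans_lt ?_
        exact_mod_cast i.2
      · rw [← Polynomial.aeval_def, map_add, map_pow, Polynomial.aeval_X, map_sum, ← heq]
        congr 1
        refine Finset.sum_congr rfl fun i _ => ?_
        rw [map_mul, map_pow, Polynomial.aeval_X, Polynomial.aeval_C]
    choose μ hμ using hall
    exact not_const_4 GP SP d sg hGh hSh (by omega) P (Q 0) μ hμ Nx e he hPe hP0 hSne hdiv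
  -- the derivation
  have hΔ : ∃ Δ : Derivation k (MF L) (MF L), Δ (p 1 / p 0) * der (p 2 / p 0) -
      Δ (p 2 / p 0) * der (p 1 / p 0) ≠ 0 := by
    obtain ⟨i, hi⟩ := hex
    have hd' := key i hi
    have hi' : i = 0 ∨ i = 1 ∨ i = 2 := by
      fin_cases i <;> simp
    rcases hi' with rfl | rfl | rfl
    · exact absurd (mul_comm _ _) hi
    · obtain ⟨Δ, hΔ1, hΔ2⟩ := hDRV k (MF L) _ _ (hHNZ k (MF L) p hhom 0 1 2 (by decide) (by decide)
        (by decide))
      refine ⟨Δ, ?_⟩
      rw [hΔ1, zero_mul, zero_sub, neg_ne_zero]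
      exact mul_ne_zero hΔ2 hd'
    · obtain ⟨Δ, hΔ1, hΔ2⟩ := hDRV k (MF L) _ _ (hHNZ k (MF L) p hhom 0 2 1 (by decide) (by decide)
        (by decide))
      refine ⟨Δ, ?_⟩
      rw [hΔ1, zero_mul, sub_zero]
      exact mul_ne_zero hΔ2 hd'
  obtain ⟨Δ, hΔ⟩ := hΔ
  have hD := det_ne der hder Δ Q h0 hΔ
  -- the three vectors
  set δ : L → MF L := fun a : L => Δ (algebraMap L (MF L) a) with hδ
  have hδ0 : δ 0 = 0 := by rw [hδ]; simp
  set a : Fin 3 → Polynomial (MF L) := fun i => (Q i).map (algebraMap L (MF L)) with ha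
  set b : Fin 3 → Polynomial (MF L) := fun i => pd δ (Q i) with hb
  set v : Fin 3 → Polynomial (MF L) := fun i =>
    Polynomial.X * (Polynomial.derivative (Q i)).map (algebraMap L (MF L)) with hv
  have hv' : ∀ i, v i = Polynomial.X * Polynomial.derivative (a i) := fun i => by
    rw [hv, ha]
    simp only [Polynomial.derivative_map]
  have na : ∀ i, (a i).natDegree ≤ e := fun i => Polynomial.natDegree_map_le.trans (hQdeg i)
  have nb : ∀ i, (b i).natDegree ≤ e := fun i => pd_natDegree δ hδ0 _ e (hQdeg i)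
  have nv : ∀ i, (v i).natDegree ≤ e := fun i => by
    rw [hv']; exact X_der_natDegree _ e (na i)
  -- the value of `J`
  have hJQ : aeval Q J ≠ 0 := hcon j0 J hJ0 hJh
  obtain ⟨Jm, hJm⟩ : ∃ Jm : Polynomial (MF L), Jm = (aeval Q J).map (algebraMap L (MF L)) :=
    ⟨_, rfl⟩
  have hJm0 : Jm ≠ 0 := by
    rw [hJm]
    exact (Polynomial.map_ne_zero_iff (algebraMap L (MF L)).injective).2 hJQ
  have hJmd : Jm.natDegree ≤ j0 * e := by
    rw [hJm]
    exact Polynomial.natDegree_map_le.trans (natDegree_aeval_le J j0 e hJh Q hQdeg)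
  have hdtd := dt_natDegree e a b v na nb nv
  have hde : (j0 + 3) * e < m + (d * e - (aeval P GP).natDegree) := by
    have h1 : (j0 + sg + 4) * e ≤ d * e := Nat.mul_le_mul_right _ hd
    have h2 : (j0 + sg + 4) * e = (j0 + 3) * e + sg * e + e := by ring
    omega
  obtain ⟨hrefl, hrev0⟩ := reflect_eq (aeval P GP) hA0 (d * e) hAle
  refine mul_ne_zero hJm0 hD (ends2 (Jm * dt a b v) ((j0 + 3) * e) m
    (d * e - (aeval P GP).natDegree) ?_ hde ?_ ?_)
  · refine Polynomial.natDegree_mul_le.trans ?_
    rw [Nat.add_mul]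
    exact add_le_add hJmd hdtd
  · have h1 := hGns L (MF L) Δ P RR m hRR0 hP0 hI hP
    rw [← hQdef] at h1
    rw [hJm]
    exact h1
  -- the reflected family
  have hQ : aeval (fun i => (P i).reflect e) GP =
      (aeval P GP).reverse * Polynomial.X ^ (d * e - (aeval P GP).natDegree) := by
    rw [reflect_aeval_gen GP d e hGh P hdeg, hrefl]
  have hQ0 : ∃ i, ((P i).reflect e).coeff 0 ≠ 0 := by
    obtain ⟨i, hi⟩ := hPe
    refine ⟨i, ?_⟩
    rw [Polynomial.coeff_reflect, Polynomial.revAt_zero]
    exact hi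
  have hI' : ∀ f : MvPolynomial σ k, aeval X f = 0 →
      aeval (fun i => (P i).reflect e) f = 0 := by
    intro f hf
    rw [← sum_homogeneousComponent f, map_sum]
    refine Finset.sum_eq_zero fun i _ => ?_
    rw [reflect_aeval_gen _ i e (homogeneousComponent_isHomogeneous i f) P hdeg,
      comp_zero X u dd hXeu P hI f hf i, Polynomial.reflect_zero]
  have h1 := hGns L (MF L) Δ
    (fun i => (P i).reflect e) _ _ hrev0 hQ0 hI' hQ
  have e0 : lin cc (fun i => (P i).reflect e) = fun l => (Q l).reflect e := by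
    funext l
    rw [lin_reflect, hQdef]
  have eJ : (aeval (fun l => (Q l).reflect e) J).map (algebraMap L (MF L)) =
      Jm.reflect (j0 * e) := by
    rw [reflect_aeval_gen J j0 e hJh Q hQdeg, hJm, Polynomial.reflect_map]
  have e1 : ∀ i, ((Q i).reflect e).map (algebraMap L (MF L)) = (a i).reflect e := fun i =>
    (Polynomial.reflect_map _ _ _).symm
  have e2 : ∀ i, pd (fun b => Δ (algebraMap L (MF L) b)) ((Q i).reflect e) =
      (b i).reflect e := fun i => by
    rw [hb, ← pd_reflect δ hδ0]
  have e3 : ∀ i, Polynomial.X * (Polynomial.derivative ((Q i).reflect e)).map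
      (algebraMap L (MF L)) = Polynomial.C (e : MF L) * (a i).reflect e - (v i).reflect e := by
    intro i
    rw [← Polynomial.derivative_map, e1, X_derivative_reflect (a i) e (na i), hv']
  rw [e0, eJ] at h1
  simp only [e1, e2, e3] at h1
  have e4 : dt (fun i => (a i).reflect e) (fun i => (b i).reflect e)
      (fun i => Polynomial.C (e : MF L) * (a i).reflect e - (v i).reflect e) =
      - (dt a b v).reflect (3 * e) := by
    rw [← dt_reflect e a b v na nb nv, dt_def, dt_def]
    ring
  rw [e4, mul_neg, ← Polynomial.reflect_mul _ _ hJmd hdtd, ← Nat.add_mul] at h1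
  exact (dvd_neg.1 h1)

end Pool.Agent.H4.S2
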