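import Pool.Agent.H84.S2.TgD

/-!
# MP_70ba79_ag, THEOREM S, part 2: row D_VDA (the number of conditions)
-/

set_option autoImplicit false

namespace Pool.Agent.H4.S2

open MvPolynomial SC
open Pool.Agent.H27.LV (ge deg poleOrder canDeg)
open Pool.Agent.H84.SM (cr dt dp)
open Pool.Agent.H92.SF (Q2)
open Pool.Agent.H3.SF (Itg Bb BB Hm eu grd hes Sfc Crd Cnn Crf Prm nv Vl VQ evc FE E)
open Pool.Agent.H84.SF
open Pool.Agent.H3.S2
open Pool.Agent.H84.S2

theorem hs_finite {k σ : Type} [Field k] [Fintype σ] (e : ℕ) :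
    Module.Finite k (homogeneousSubmodule σ k e) :=
  Module.Finite.iff_fg.2 (homogeneousSubmodule_fg σ k e)

theorem cut_one {k F : Type} [Field k] [AddCommGroup F] [Module k F] (V U W : Submodule k F)
    (hU : U ≤ V) [Module.Finite k V] {Q : Type} [AddCommGroup Q] [Module k Q] [Module.Finite k Q]
    (φ : V →ₗ[k] Q) (hφ : ∀ v : V, φ v = 0 → (v : F) ∈ W) :
    Module.finrank k U ≤ Module.finrank k ↥(U ⊓ W) + Module.finrank k Q := by
  have : Module.Finite k U :=
    Module.Finite.of_injective (Submodule.inclusion hU) (Submodule.inclusion_injective hU)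
  obtain ⟨ψ, hψ⟩ : ∃ ψ : U →ₗ[k] Q, ψ = φ ∘ₗ Submodule.inclusion hU := ⟨_, rfl⟩
  have h1 := LinearMap.finrank_range_add_finrank_ker ψ
  have h2 : Module.finrank k (LinearMap.range ψ) ≤ Module.finrank k Q :=
    Submodule.finrank_le _
  have h3 : Module.Finite k ↥(U ⊓ W) :=
    Module.Finite.of_injective (Submodule.inclusion inf_le_left)
      (Submodule.inclusion_injective inf_le_left)
  have h4 : Module.finrank k (LinearMap.ker ψ) ≤ Module.finrank k ↥(U ⊓ W) := by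
    obtain ⟨χ, hχ⟩ : ∃ χ : LinearMap.ker ψ →ₗ[k] ↥(U ⊓ W), ∀ x, (χ x : F) = ((x : U) : F) := by
      refine ⟨LinearMap.codRestrict (U ⊓ W) (U.subtype ∘ₗ (LinearMap.ker ψ).subtype) ?_,
        fun x => rfl⟩
      intro x
      refine ⟨(x : U).2, hφ ⟨(x : U), hU (x : U).2⟩ ?_⟩
      have h5 : ψ (x : U) = 0 := LinearMap.mem_ker.mp x.2
      have h6 : ψ (x : U) = φ (Submodule.inclusion hU (x : U)) := LinearMap.congr_fun hψ _
      exact h6.symm.trans h5
    refine LinearMap.finrank_le_finrank_of_injective (f := χ) ?_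
    intro x y hxy
    apply Subtype.ext
    apply Subtype.ext
    rw [← hχ x, ← hχ y, hxy]
  omega

theorem cut_all {k F ι : Type} [Field k] [AddCommGroup F] [Module k F] [DecidableEq ι]
    (V : Submodule k F) [Module.Finite k V] (W : ι → Submodule k F) (d : ℕ) (T : Finset ι)
    (h : ∀ s ∈ T, ∃ (Q : Type) (_ : AddCommGroup Q) (_ : Module k Q) (_ : Module.Finite k Q)
      (φ : V →ₗ[k] Q), Module.finrank k Q = d ∧ ∀ v : V, φ v = 0 → (v : F) ∈ W s) :
    Module.finrank k V ≤ Module.finrank k ↥(V ⊓ ⨅ s ∈ T, W s) + T.card * d := by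
  induction T using Finset.induction_on with
  | empty =>
    have h0 : V ⊓ ⨅ s ∈ (∅ : Finset ι), W s = V := by simp
    rw [h0]
    simp
  | insert a T ha ih =>
    have h1 := ih fun s hs => h s (Finset.mem_insert_of_mem hs)
    obtain ⟨Q, i1, i2, i3, φ, hd, hφ⟩ := h a (Finset.mem_insert_self a T)
    have h2 := cut_one V (V ⊓ ⨅ s ∈ T, W s) (W a) inf_le_left φ hφ
    have h3 : V ⊓ ⨅ s ∈ insert a T, W s = (V ⊓ ⨅ s ∈ T, W s) ⊓ W a := by
      rw [Finset.iInf_insert, inf_assoc, inf_comm (W a)]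
    rw [h3, Finset.card_insert_of_notMem ha, Nat.add_mul, Nat.one_mul]
    rw [hd] at h2
    omega

theorem mx_eq {k F σ : Type} [Field k] [Field F] [Algebra k F] (X : σ → F) (s : σ → k)
    (ε : Os X s →ₐ[k] k) (hε : ∀ (h : Os X s) (d : ℕ) (a b : MvPolynomial σ k),
      Rep X (h : F) d a b → ε h * eval s b = eval s a) : Mx X s = RingHom.ker ε := by
  apply le_antisymm
  · unfold Mx
    rw [Ideal.span_le]
    rintro z ⟨d, a, b, h1, h2, h3⟩
    have h4 := hε z d a b h1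
    rw [h3] at h4
    rw [SetLike.mem_coe, RingHom.mem_ker]
    exact (mul_eq_zero.mp h4).resolve_right h2
  · intro z hz
    rw [RingHom.mem_ker] at hz
    obtain ⟨d, a, b, h1, h2⟩ := z.2
    refine Ideal.subset_span ⟨d, a, b, h1, h2, ?_⟩
    rw [← hε z d a b h1]
    have h5 : ε z = 0 := hz
    rw [h5, zero_mul]

theorem pf_VDA (hJDA : T_JDA) : T_VDA := by
  intro k F σ _ _ _ _ _ X T hT e h
  classical
  have hfh : Module.Finite k (homogeneousSubmodule σ k e) := hs_finite e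
  have hfin : Module.Finite k (Vf (k := k) X e) := by
    unfold Vf
    infer_instance
  refine ⟨hfin, ?_⟩
  -- the dimension
  obtain ⟨d, hd⟩ : ∃ d : ℕ, 2 * d = h * (h + 1) := by
    obtain ⟨d, hd⟩ := Nat.even_mul_succ_self h
    exact ⟨d, by omega⟩
  have hmain := cut_all (k := k) (Vf (k := k) X e) (fun s => Vo X s e h) d T ?_
  · unfold Wf
    have h1 : T.card * (h * (h + 1)) = 2 * (T.card * d) := by
      rw [← hd]; ring
    omega
  intro s hs
  obtain ⟨hC, L0, L1, L2, ε, x1, y1, dX, dY, hL0, -, -, hs0, hε, -, -, hfr⟩ := hT s hs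
  obtain ⟨hq1, hq2⟩ := hJDA k (Os X s) ε x1 y1 dX dY hfr h
  have hL0F : aeval X L0 ≠ 0 := fun h0 => hs0 (hC.pt L0 h0)
  have hmem : ∀ v : Vf (k := k) X e,
      (LinearMap.mulRight k ((aeval X L0) ^ e)⁻¹) (v : F) ∈ (Os X s).toSubmodule := by
    intro v
    obtain ⟨f, hf, hfv⟩ := v.2
    rw [SetLike.mem_coe, mem_homogeneousSubmodule] at hf
    have hfv' : aeval X f = (v : F) := hfv
    refine ⟨e, f, L0 ^ e, ⟨hf, ?_, ?_⟩, ?_⟩
    · have := hL0.pow e
      rwa [one_mul] at this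
    · rw [LinearMap.mulRight_apply, map_pow, inv_mul_cancel_right₀ (pow_ne_zero _ hL0F), hfv']
    · rw [map_pow]
      exact pow_ne_zero _ hs0
  refine ⟨Os X s ⧸ (RingHom.ker ε) ^ h, inferInstance, inferInstance, hq1,
    (Submodule.mkQ (((RingHom.ker ε) ^ h).restrictScalars k)) ∘ₗ
      (LinearMap.codRestrict (Os X s).toSubmodule
        ((LinearMap.mulRight k ((aeval X L0) ^ e)⁻¹) ∘ₗ (Vf (k := k) X e).subtype) hmem :
        Vf (k := k) X e →ₗ[k] Os X s), by omega, ?_⟩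
  intro v hv L0' hL0' hs0'
  have hv' : (⟨_, hmem v⟩ : Os X s) ∈ RingHom.ker ε ^ h :=
    (Submodule.Quotient.mk_eq_zero ((RingHom.ker ε ^ h).restrictScalars k)).mp hv
  have hL0F' : aeval X L0' ≠ 0 := fun h0 => hs0' (hC.pt L0' h0)
  have hr : aeval X L0 / aeval X L0' ∈ Os X s := by
    refine ⟨1, L0, L0', ⟨hL0, hL0', ?_⟩, hs0'⟩
    field_simp
  refine ⟨(⟨_, hmem v⟩ : Os X s) * (⟨_, hr⟩ : Os X s) ^ e, ?_, ?_⟩
  · rw [mx_eq X s ε hε]
    exact Ideal.mul_mem_right _ _ hv'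
  · rw [MulMemClass.coe_mul, SubmonoidClass.coe_pow]
    change (v : F) * ((aeval X L0) ^ e)⁻¹ * (aeval X L0 / aeval X L0') ^ e * aeval X L0' ^ e = v
    have h1 := pow_ne_zero e hL0F
    have h2 := pow_ne_zero e hL0F'
    rw [div_pow]
    field_simp

end Pool.Agent.H4.S2
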